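import Pool.Agent.TH464.PO.Two

set_option autoImplicit false

/-!
# The Poisson law for the almost prime values of `m ^ 2 + 1` and `m ^ 2 + 3`

Let `m` be good if `m ^ 2 + 1` and `m ^ 2 + 3` both have at most `2 r` prime factors, all larger
than `X ^ (1 / r)`. Let `V` be the product of `1 - ρ(p) / p` over the primes `p ≤ X ^ (1 / r)`.
Given `θ > 0`, a size `x` and an accuracy `ε`, for all `r ≥ r0 (θ, x, ε)`, all large `X`, ALL `Y`
with `X ^ θ ≤ Y ≤ X` and ALL window lengths `T` with `T V ≤ x` the number of the good `m` in `(n,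
n + T]`, for `n` in `(X, X + Y]`, has the Poisson distribution of mean `T V`, up to `ε` in total
variation.
-/

namespace Pool.Agent.Results.MP_2dba45_nt.PoissonLaw

open Finset Filter

/-- `N` has at most `B` prime factors (with multiplicity), all of them larger than `z`. -/
def AlmostPrime (B : ℕ) (z : ℝ) (N : ℕ) : Prop :=
  N.primeFactorsList.length ≤ B ∧ ∀ p : ℕ, p.Prime → p ∣ N → z < (p : ℝ)

/-- `m` is good: `m ^ 2 + 1` and `m ^ 2 + 3` both have at most `2 r` prime factors, all larger than `X ^ (1 / r)`. -/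
def Good (r X m : ℕ) : Prop :=
  AlmostPrime (2 * r) ((X : ℝ) ^ (1 / (r : ℝ))) (m ^ 2 + 1) ∧
    AlmostPrime (2 * r) ((X : ℝ) ^ (1 / (r : ℝ))) (m ^ 2 + 3)

open Classical in
/-- The sieve density: the product of `1 - ρ(p) / p` over the primes `p ≤ X ^ (1 / r)`, where `ρ(p)` is
the number of the `a` mod `p` with `p ∣ a ^ 2 + 1` or `p ∣ a ^ 2 + 3`. -/
noncomputable def V (r X : ℕ) : ℝ :=
  ∏ p ∈ (Finset.range (⌊(X : ℝ) ^ (1 / (r : ℝ))⌋₊ + 1)).filter Nat.Prime,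
    (1 - (((Finset.range p).filter (fun a : ℕ => p ∣ a ^ 2 + 1 ∨ p ∣ a ^ 2 + 3)).card : ℝ) / p)

open Classical in
/-- The number of the good `m` in `(n, n + T]`. -/
noncomputable def N (r X T n : ℕ) : ℕ :=
  ((Finset.Ioc n (n + T)).filter (fun m => Good r X m)).card

/-- The probability of `A` for the Poisson distribution of mean `x`. -/
noncomputable def Poi (x : ℝ) (A : Finset ℕ) : ℝ :=
  ∑ j ∈ A, Real.exp (-x) * x ^ j / j.factorial

open Pool.Agent.TH464.PO Pool.Agent.TH464.PW Pool.Agent.W123.RU Pool.Agent.W123.RU.Poly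
open Pool.Agent.H373R2.T7 Pool.Agent.W123.RP

lemma good_iff (r : ℕ) (hr : 1 ≤ r) : ∀ᶠ X : ℕ in atTop, ∀ m : ℕ, m ≤ 3 * X →
    (Sf (Q f13) ⌊(X : ℝ) ^ (1 / (r : ℝ))⌋₊ m ↔ Good r X m) := by
  filter_upwards [sf_two (quad 1 0 1) (quad 1 0 3) 2 2 (quad_deg 1 0 1 one_ne_zero).le (quad_deg 1 0 3 one_ne_zero).le r hr] with X hX m hm
  have e1 : ((quad 1 0 1).eval (m : ℤ)).natAbs = (m ^ 2 + 1) := by
    have e : (1 : ℤ) * (m : ℤ) ^ 2 + 0 * m + 1 = ((m ^ 2 + 1 : ℕ) : ℤ) := by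
      push_cast
      ring
    rw [quad_eval, e, Int.natAbs_natCast]
  have e2 : ((quad 1 0 3).eval (m : ℤ)).natAbs = (m ^ 2 + 3) := by
    have e : (1 : ℤ) * (m : ℤ) ^ 2 + 0 * m + 3 = ((m ^ 2 + 3 : ℕ) : ℤ) := by
      push_cast
      ring
    rw [quad_eval, e, Int.natAbs_natCast]
  have h := hX m hm
  rw [e1, e2] at h
  exact h

lemma V_eq (r X : ℕ) : Vq (Q f13) ⌊(X : ℝ) ^ (1 / (r : ℝ))⌋₊ = V r X :=
  V_gen f13 (fun p a => p ∣ a ^ 2 + 1 ∨ p ∣ a ^ 2 + 3) (fun p m => by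
    have e1 : (p : ℤ) ∣ (quad 1 0 1).eval (m : ℤ) ↔ p ∣ m ^ 2 + 1 := by
      have e : (1 : ℤ) * (m : ℤ) ^ 2 + 0 * m + 1 = ((m ^ 2 + 1 : ℕ) : ℤ) := by
        push_cast
        ring
      rw [quad_eval, e, Int.natCast_dvd_natCast]
    have e2 : (p : ℤ) ∣ (quad 1 0 3).eval (m : ℤ) ↔ p ∣ m ^ 2 + 3 := by
      have e : (1 : ℤ) * (m : ℤ) ^ 2 + 0 * m + 3 = ((m ^ 2 + 3 : ℕ) : ℤ) := by
        push_cast
        ring
      rw [quad_eval, e, Int.natCast_dvd_natCast]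
    unfold f13
    rw [Q_two, e1, e2]) _

open Classical in
/-- **The Poisson law, in every short interval.** -/
theorem result (θ : ℝ) (hθ : 0 < θ) (x ε : ℝ) (hε : 0 < ε) :
    ∃ r0 : ℕ, ∀ r : ℕ, r0 ≤ r → ∀ᶠ X : ℕ in atTop, ∀ Y : ℕ, (X : ℝ) ^ θ ≤ Y → Y ≤ X →
      ∀ T : ℕ, T * V r X ≤ x → ∀ A : Finset ℕ,
        |(((Finset.Ioc X (X + Y)).filter (fun n => N r X T n ∈ A)).card : ℝ) -
          Y * Poi (T * V r X) A| ≤ ε * Y :=
  pack_poisson f13 Good V f13_sys f13_noTr good_iff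
    V_eq θ hθ x ε hε

end Pool.Agent.Results.MP_2dba45_nt.PoissonLaw
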