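import Pool.Agent.TH977.PW.Inst

set_option autoImplicit false

/-!
# The `m` with `m ^ 2 + 1` and `m ^ 2 + 3` rough around almost all of them

Let `R r` be the set of the `m` for which all prime factors of `m ^ 2 + 1` and of `m ^ 2 + 3` are
larger than `m ^ (1 / r)`; it contains all `m` for which both are prime. In every short interval
`(X, X + Y]`, `Y ≥ X ^ θ`, there are at least `κ Y / log ^ 2 X` integers `m` in `R r` for which
`m ^ 2 + 1` and `m ^ 2 + 3` have at most `r` prime factors. Let `A` be an ARBITRARY subset of `R r`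
(these `m`, or the `m` for which both are prime). In every short interval all but
`ε Y / log ^ 2 X` of the elements of `A` are regular points of `A`.
-/

namespace Pool.Agent.Results.MP_2dba45_nt.RegularNeighbours

open Finset Filter
open Pool.Agent.TH977.PW (N Irregular)

/-- All prime factors of `m ^ 2 + 1` and of `m ^ 2 + 3` are larger than `m ^ (1 / r)`. -/
def R (r : ℕ) : Set ℕ :=
  {m | ∀ p : ℕ, p.Prime → p ∣ (m ^ 2 + 1) * (m ^ 2 + 3) → (m : ℝ) ^ (1 / (r : ℝ)) < (p : ℝ)}

lemma cast_eq (e m : ℕ) : (1 : ℤ) * (m : ℤ) ^ 2 + 0 * m + (e : ℤ) = ((m ^ 2 + e : ℕ) : ℤ) := by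
  push_cast
  ring

open Pool.Agent.TH464.PW Pool.Agent.W123.RU.Poly in
lemma sys : Sys (fun i : Bool => quad 1 0 ((if i then 1 else 3 : ℕ) : ℤ)) where
  irr := fun i => by
    apply quad_irr _ _ _ one_ne_zero
    · intro p hp h
      have h1 : p ∣ 1 := by exact_mod_cast h.1
      exact hp.one_lt.ne' (Nat.dvd_one.1 h1)
    · rintro ⟨x, hx⟩
      cases i <;> simp at hx <;> nlinarith [mul_self_nonneg x]
  deg := fun i => by rw [quad_deg _ _ _ one_ne_zero]; norm_num
  lead := fun i => by rw [quad_lead _ _ _ one_ne_zero]; norm_num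
  inj := fun i j h => by
    have h1 : (quad 1 0 ((if i then 1 else 3 : ℕ) : ℤ)).eval 0 =
        (quad 1 0 ((if j then 1 else 3 : ℕ) : ℤ)).eval 0 := by
      simp only at h
      rw [h]
    rw [quad_eval, quad_eval] at h1
    cases i <;> cases j <;> simp at h1 ⊢
  adm := fun p hp => by
    by_cases h3 : p = 3
    · subst h3
      refine ⟨2, fun i h => ?_⟩
      rw [quad_eval] at h
      cases i <;> simp at h <;> omega
    · refine ⟨0, fun i h => ?_⟩
      rw [quad_eval] at h
      cases i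
      · simp only [Bool.false_eq_true, if_false] at h
        have h1 : p ∣ 3 := by
          have : (p : ℤ) ∣ ((3 : ℕ) : ℤ) := by simpa using h
          exact_mod_cast this
        exact h3 ((Nat.prime_dvd_prime_iff_eq hp Nat.prime_three).1 h1)
      · simp only [if_true] at h
        have h1 : p ∣ 1 := by
          have : (p : ℤ) ∣ ((1 : ℕ) : ℤ) := by simpa using h
          exact_mod_cast this
        exact hp.one_lt.ne' (Nat.dvd_one.1 h1)

open Pool.Agent.TH464.PW in
/-- **Regular neighbours, `m ^ 2 + 1` and `m ^ 2 + 3`.** -/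
theorem result (θ : ℝ) (hθ : 0 < θ) (hθ1 : θ ≤ 1) :
    ∃ r₀ : ℕ, 2 ≤ r₀ ∧ ∀ r : ℕ, r₀ ≤ r →
      (∀ m : ℕ, (m ^ 2 + 1).Prime → (m ^ 2 + 3).Prime → m ∈ R r) ∧
      (∃ κ : ℝ, 0 < κ ∧ ∀ᶠ X : ℕ in atTop, ∀ Y : ℕ, (X : ℝ) ^ θ ≤ Y → Y ≤ X →
        κ * Y / Real.log X ^ 2 ≤ N {m | m ∈ R r ∧ (m ^ 2 + 1).primeFactorsList.length ≤ r ∧
          (m ^ 2 + 3).primeFactorsList.length ≤ r} X (X + Y)) ∧
      ∀ ε : ℝ, 0 < ε → ∃ c : ℝ, 0 < c ∧ ∀ δ : ℝ, 0 < δ → ∃ B : ℕ,
        ∀ᶠ X : ℕ in atTop, ∀ Y : ℕ, (X : ℝ) ^ θ ≤ Y → 2 * Y ≤ X → ∀ A : Set ℕ, A ⊆ R r →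
          (N (Irregular A 2 c δ B X Y) X (X + Y) : ℝ) ≤ ε * Y / Real.log X ^ 2 := by
  obtain ⟨r0, hr0, h⟩ := Pool.Agent.TH977.PW.final _ sys
    (fun r => R r)
    (fun r => {m | m ∈ R r ∧ (m ^ 2 + 1).primeFactorsList.length ≤ r ∧
      (m ^ 2 + 3).primeFactorsList.length ≤ r})
    2 (by rw [Fintype.card_bool])
    (fun r m _ hm i p hp hd => by
      apply hm p hp
      rw [quad_eval, cast_eq, Int.natCast_dvd_natCast] at hd
      cases i
      · exact (by simpa using hd : p ∣ m ^ 2 + 3).mul_left _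
      · exact (by simpa using hd : p ∣ m ^ 2 + 1).mul_right _)
    (fun r m _ h1 h2 => by
      refine ⟨fun p hp hd => ?_, ?_, ?_⟩
      · rcases (Nat.Prime.dvd_mul hp).1 hd with h3 | h3
        · refine h1 true p hp ?_
          rw [quad_eval, cast_eq, Int.natCast_dvd_natCast]
          simpa using h3
        · refine h1 false p hp ?_
          rw [quad_eval, cast_eq, Int.natCast_dvd_natCast]
          simpa using h3
      · have := h2 true
        rw [quad_eval, cast_eq, Int.natAbs_natCast] at this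
        simpa using this
      · have := h2 false
        rw [quad_eval, cast_eq, Int.natAbs_natCast] at this
        simpa using this) θ hθ hθ1
  refine ⟨r0, hr0, fun r hr => ⟨?_, (h r hr).1, (h r hr).2⟩⟩
  intro m h1 h2 q hq hd
  have hm : 1 ≤ m := by
    rcases Nat.eq_zero_or_pos m with h0 | h0
    · subst h0
      exact absurd h1 (by norm_num)
    · exact h0
  have key : ∀ n : ℕ, m + 1 ≤ n → (m : ℝ) ^ (1 / (r : ℝ)) < (n : ℝ) := by
    intro n hn
    have h3 := Pool.Agent.TH977.PW.rpow_lt_of_le r (m + 1) n (hr0.trans hr) (by omega) hn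
    refine lt_of_le_of_lt ?_ h3
    apply Real.rpow_le_rpow (by positivity) _ (by positivity)
    push_cast
    linarith
  rcases (Nat.Prime.dvd_mul hq).1 hd with h3 | h3
  · rw [(Nat.prime_dvd_prime_iff_eq hq h1).1 h3]
    exact key _ (by nlinarith)
  · rw [(Nat.prime_dvd_prime_iff_eq hq h2).1 h3]
    exact key _ (by nlinarith)

end Pool.Agent.Results.MP_2dba45_nt.RegularNeighbours
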